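import Pool.Agent.Helper75.KM.Stmts

/-!
# Module LOCA: the two-ends reduction
-/

set_option autoImplicit false

namespace Pool.Agent.Helper75.KM

open Pool.Agent.Helper8.Kak Pool.Agent.Helper89.KakGeo

theorem loca_log (α ε : ℝ) (hα : 1 ≤ α) (hε : 0 < ε) (N : ℕ) :
    α * Real.log ((N : ℝ) + 1)
      ≤ ε / 3 * N + (ε / 3 - α - α * Real.log (ε / (3 * α))) := by
  have hα0 : 0 < α := by linarith
  have hδ : 0 < ε / (3 * α) := by positivity
  have hN : (0 : ℝ) < (N : ℝ) + 1 := by positivity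
  have h1 := Real.log_le_sub_one_of_pos (mul_pos hδ hN)
  rw [Real.log_mul hδ.ne' hN.ne'] at h1
  have h2 : α * (ε / (3 * α)) = ε / 3 := by field_simp
  have h3 := mul_le_mul_of_nonneg_left h1 hα0.le
  have h4 : α * (ε / (3 * α) * ((N : ℝ) + 1) - 1) = ε / 3 * ((N : ℝ) + 1) - α := by
    rw [mul_sub, ← mul_assoc, h2, mul_one]
  rw [h4, mul_add] at h3
  linarith

open scoped Classical in
/-- mass of the part of `A` where `f` has the value `b` -/
noncomputable def loca_w {Ω B : Type} [Fintype Ω] (A : Ω → Prop) (f : Ω → B) (q : Ω → ℝ) (b : B) :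
    ℝ := ∑ ω, if A ω ∧ f ω = b then q ω else 0

open scoped Classical in
theorem loca_fib {Ω B : Type} [Fintype Ω] [Fintype B] (A : Ω → Prop) (f : Ω → B) (q : Ω → ℝ)
    (F : B → ℝ) :
    ∑ b, loca_w A f q b * F b = ∑ ω, if A ω then q ω * F (f ω) else 0 := by
  simp only [loca_w, Finset.sum_mul]
  rw [Finset.sum_comm]
  refine Finset.sum_congr rfl fun ω _ => ?_
  by_cases hA : A ω
  · rw [if_pos hA, Finset.sum_eq_single (f ω)]
    · rw [if_pos ⟨hA, rfl⟩]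
    · intro b _ hb
      rw [if_neg (fun h => hb h.2.symm), zero_mul]
    · intro h
      exact absurd (Finset.mem_univ _) h
  · rw [if_neg hA]
    refine Finset.sum_eq_zero fun b _ => ?_
    rw [if_neg (fun h => hA h.1), zero_mul]

theorem loca_div (N j s : ℕ) (hs : j + s ≤ N) (T q : ℕ) (hq : T / 2 ^ (N - j) = q) :
    T / 2 ^ (N - (j + s)) = q * 2 ^ s + (T % 2 ^ (N - j)) / 2 ^ (N - j - s) := by
  have e : N - (j + s) = N - j - s := by omega
  have e2 : 2 ^ (N - j) = 2 ^ s * 2 ^ (N - j - s) := by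
    rw [← pow_add]
    congr 1
    omega
  have hT : T = q * 2 ^ (N - j) + T % 2 ^ (N - j) := by
    rw [← hq]
    exact (Nat.div_add_mod' T (2 ^ (N - j))).symm
  have hpos : 0 < 2 ^ (N - j - s) := Nat.two_pow_pos _
  rw [e]
  conv_lhs => rw [hT, e2, ← mul_assoc]
  rw [Nat.add_comm, Nat.add_mul_div_right _ _ hpos, ← e2, Nat.add_comm]

open scoped Classical in
theorem loca_conc (hccj : ST_CCJ) (hcond : ST_COND) {Ω L W : Type} [Fintype Ω] (N : ℕ)
    (p : Ω → ℝ) (hp : IsProb p) (K : Setoid Ω) (l : Ω → L) (T : Ω → Fin (2 ^ N))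
    (J : Ω → Fin (N + 1)) (Θ : Ω → W)
    (hΘ : ∀ ω ω', Θ ω = Θ ω' → QQ (J ω) (T ω) = QQ (J ω') (T ω'))
    (hle : K ⊓ Setoid.ker l ⊓ Setoid.ker (fun ω => QQ (J ω) (T ω)) ≤
      K ⊓ Setoid.ker l ⊓ Setoid.ker Θ)
    (η : ℝ) (hη : 0 < η)
    (hJ : ∀ ω0, 0 < p ω0 → ∀ s : ℕ, (J ω0 : ℕ) + s ≤ N → ∀ u : ℕ,
        (∑ ω, if (K ⊓ Setoid.ker l ⊓ Setoid.ker (fun ω => QQ (J ω) (T ω))) ω0 ω ∧
            (T ω : ℕ) / 2 ^ (N - ((J ω0 : ℕ) + s)) = u then p ω else 0)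
          ≤ Real.exp 1 * (2 : ℝ) ^ (-(η * s)) *
            cls p (K ⊓ Setoid.ker l ⊓ Setoid.ker (fun ω => QQ (J ω) (T ω))) ω0)
    (ω0 : Ω) (h0 : 0 < p ω0) :
    Conc (cnd p Θ (Θ ω0)) K l (fun ω => locT (J ω0 : ℕ) (T ω)) (DD η) := by
  obtain ⟨hc1, hc2, hc3, -⟩ := hcond Ω W p hp Θ (K ⊓ Setoid.ker l)
  set j : ℕ := (J ω0 : ℕ) with hj
  intro ω hω t
  obtain ⟨hpω, hΘω⟩ := (hc2 ω0 ω h0).1 hω
  have hq0 : ∀ ω', 0 ≤ cnd p Θ (Θ ω0) ω' := (hc1 ω0 h0).1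
  set q' : Ω → ℝ := cnd p Θ (Θ ω0) with hq'
  have hlaw : 0 < law p Θ (Θ ω0) := by
    rw [law_eq_cls]
    exact cls_pos hp.1 _ h0
  set Z : ℝ := law p Θ (Θ ω0) with hZ
  -- values of the scale
  have hQω : QQ (J ω) (T ω) = QQ (J ω0) (T ω0) := hΘ _ _ hΘω
  have hJω : (J ω : ℕ) = j := (Prod.ext_iff.1 hQω).1
  set w : Fin (2 ^ (N - j)) → ℝ :=
    loca_w (fun ω' => (K ⊓ Setoid.ker l) ω ω') (fun ω' => locT j (T ω')) q' with hw
  have hw0 : ∀ t', 0 ≤ w t' := by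
    intro t'
    rw [hw]
    unfold loca_w
    refine Finset.sum_nonneg fun ω' _ => ?_
    split_ifs
    exacts [hq0 _, le_rfl]
  have hW : ∑ t', w t' ≤ cls q' (K ⊓ Setoid.ker l) ω := by
    have h := loca_fib (fun ω' => (K ⊓ Setoid.ker l) ω ω') (fun ω' => locT j (T ω')) q'
      (fun _ => 1)
    simp only [mul_one] at h
    exact h.le
  have hcls : cls q' (K ⊓ Setoid.ker l) ω
      = cls p (K ⊓ Setoid.ker l ⊓ Setoid.ker Θ) ω / Z := hc3 ω0 ω h0 hΘω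
  have hdec : ∀ s : ℕ, s ≤ N - j → ∀ u : ℕ,
      (∑ t' : Fin (2 ^ (N - j)), if (t' : ℕ) / 2 ^ (N - j - s) = u then w t' else 0)
        ≤ Real.exp 1 * (2 : ℝ) ^ (-(η * s)) * cls q' (K ⊓ Setoid.ker l) ω := by
    intro s hs u
    have hjN : j ≤ N := by
      have := (J ω0).2
      omega
    have hsN : (J ω : ℕ) + s ≤ N := by omega
    have e1 : (∑ t' : Fin (2 ^ (N - j)), if (t' : ℕ) / 2 ^ (N - j - s) = u then w t' else 0)
        = ∑ ω', if (K ⊓ Setoid.ker l) ω ω' then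
            q' ω' * (if ((locT j (T ω') : Fin (2 ^ (N - j))) : ℕ) / 2 ^ (N - j - s) = u
              then (1 : ℝ) else 0) else 0 := by
      rw [← loca_fib (fun ω' => (K ⊓ Setoid.ker l) ω ω') (fun ω' => locT j (T ω')) q'
        (fun t' : Fin (2 ^ (N - j)) => if (t' : ℕ) / 2 ^ (N - j - s) = u then (1 : ℝ) else 0)]
      refine Finset.sum_congr rfl fun t' _ => ?_
      by_cases h : (t' : ℕ) / 2 ^ (N - j - s) = u
      · rw [if_pos h, if_pos h, mul_one]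
      · rw [if_neg h, if_neg h, mul_zero]
    rw [e1]
    have hmain := hJ ω hpω s hsN ((T ω0 : ℕ) / 2 ^ (N - j) * 2 ^ s + u)
    rw [hJω] at hmain
    have hle2 : (∑ ω', if (K ⊓ Setoid.ker l) ω ω' then
            q' ω' * (if ((locT j (T ω') : Fin (2 ^ (N - j))) : ℕ) / 2 ^ (N - j - s) = u
              then (1 : ℝ) else 0) else 0)
        ≤ (∑ ω', if (K ⊓ Setoid.ker l ⊓ Setoid.ker (fun ω => QQ (J ω) (T ω))) ω ω' ∧
            (T ω' : ℕ) / 2 ^ (N - (j + s)) = (T ω0 : ℕ) / 2 ^ (N - j) * 2 ^ s + u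
            then p ω' else 0) / Z := by
      rw [Finset.sum_div]
      refine Finset.sum_le_sum fun ω' _ => ?_
      have hnn : 0 ≤ (if (K ⊓ Setoid.ker l ⊓ Setoid.ker (fun ω => QQ (J ω) (T ω))) ω ω' ∧
            (T ω' : ℕ) / 2 ^ (N - (j + s)) = (T ω0 : ℕ) / 2 ^ (N - j) * 2 ^ s + u
            then p ω' else 0) / Z := by
        refine div_nonneg ?_ hlaw.le
        split_ifs
        exacts [hp.1 _, le_rfl]
      by_cases hr : (K ⊓ Setoid.ker l) ω ω'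
      · rw [if_pos hr]
        by_cases hu : ((locT j (T ω') : Fin (2 ^ (N - j))) : ℕ) / 2 ^ (N - j - s) = u
        · rw [if_pos hu, mul_one]
          by_cases hth : Θ ω' = Θ ω0
          · have hQ' : QQ (J ω') (T ω') = QQ (J ω0) (T ω0) := hΘ _ _ hth
            have hJ' : (J ω' : ℕ) = j := (Prod.ext_iff.1 hQ').1
            have hT' : (T ω' : ℕ) / 2 ^ (N - j) = (T ω0 : ℕ) / 2 ^ (N - j) := by
              have h2 := (Prod.ext_iff.1 hQ').2
              simp only [QQ] at h2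
              rw [hJ', ← hj] at h2
              exact h2
            have hd := loca_div N j s (by omega) (T ω' : ℕ) _ hT'
            have hu' : (T ω' : ℕ) % 2 ^ (N - j) / 2 ^ (N - j - s) = u := hu
            rw [hu'] at hd
            have hrel : (K ⊓ Setoid.ker l ⊓ Setoid.ker (fun ω => QQ (J ω) (T ω))) ω ω' := by
              refine ⟨hr, ?_⟩
              show QQ (J ω) (T ω) = QQ (J ω') (T ω')
              rw [hQω, hQ']
            rw [if_pos ⟨hrel, hd⟩]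
            refine le_of_eq ?_
            rw [hq']
            simp only [cnd]
            rw [if_pos hth]
          · have : q' ω' = 0 := by
              rw [hq']
              simp only [cnd]
              rw [if_neg hth]
            rw [this]
            exact hnn
        · rw [if_neg hu, mul_zero]
          exact hnn
      · rw [if_neg hr]
        exact hnn
    refine hle2.trans ?_
    rw [hcls, ← mul_div_assoc]
    refine div_le_div_of_nonneg_right ?_ hlaw.le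
    refine hmain.trans ?_
    refine mul_le_mul_of_nonneg_left (cls_mono hp.1 hle ω) (by positivity)
  have hfin := hccj (N - j) w η (cls q' (K ⊓ Setoid.ker l) ω) hη hw0 hW hdec t
  have e2 : (∑ ω', if (K ⊓ Setoid.ker l) ω ω' then q' ω' * ld (locT j (T ω')) t else 0)
      = ∑ t', w t' * ld t' t :=
    (loca_fib (fun ω' => (K ⊓ Setoid.ker l) ω ω') (fun ω' => locT j (T ω')) q'
      (fun t' => ld t' t)).symm
  exact e2.le.trans hfin

theorem loca_avg {Ω : Type} [Fintype Ω] (p : Ω → ℝ) (hp : IsProb p)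
    (f g : Ω → ℝ) (h : ∀ ω, 0 < p ω → f ω ≤ g ω) :
    ∑ ω, p ω * f ω ≤ ∑ ω, p ω * g ω := by
  refine Finset.sum_le_sum fun ω _ => ?_
  rcases (hp.1 ω).eq_or_lt with h0 | h0
  · rw [← h0, zero_mul, zero_mul]
  · exact mul_le_mul_of_nonneg_left (h ω h0) h0.le

theorem st_LOCA (hext : ST_EXT) (hccj : ST_CCJ) (hcond : ST_COND) (hloc : ST_LOC)
    (hacc : ST_ACC) : ST_LOCA := by
  intro m α hα hT ε hε
  have hm0 : (0 : ℝ) ≤ (m : ℝ) := Nat.cast_nonneg m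
  have hl2 : Real.log 2 ≤ 1 := by
    have := Real.log_le_sub_one_of_pos (show (0 : ℝ) < 2 by norm_num)
    linarith
  have hl20 : 0 ≤ Real.log 2 := Real.log_nonneg (by norm_num)
  obtain ⟨η, hη0, hη⟩ : ∃ η : ℝ, 0 < η ∧ (m : ℝ) * η * Real.log 2 ≤ ε / 3 := by
    refine ⟨ε / (3 * ((m : ℝ) + 1)), by positivity, ?_⟩
    have h1 : (m : ℝ) * (ε / (3 * ((m : ℝ) + 1))) ≤ ε / 3 := by
      rw [mul_div_assoc', div_le_div_iff₀ (by positivity) (by norm_num)]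
      nlinarith
    calc (m : ℝ) * (ε / (3 * ((m : ℝ) + 1))) * Real.log 2
        ≤ (m : ℝ) * (ε / (3 * ((m : ℝ) + 1))) * 1 :=
          mul_le_mul_of_nonneg_left hl2 (by positivity)
      _ ≤ ε / 3 := by rw [mul_one]; exact h1
  have hDD : 0 ≤ DD η := by
    unfold DD
    have h1 : (2 : ℝ) ^ (-η) < 1 := Real.rpow_lt_one_of_one_lt_of_neg (by norm_num) (by linarith)
    have h2 : 0 < 1 - (2 : ℝ) ^ (-η) := by linarith
    have h3 := Real.exp_pos 1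
    positivity
  obtain ⟨C, hC⟩ := hloc m α hT (ε / 3) (DD η) (by positivity) hDD
  refine ⟨C + (ε / 3 - α - α * Real.log (ε / (3 * α))), ?_⟩
  intro N L x v hd Ω _ p hp K l T
  obtain ⟨J, hJ1, hJ2⟩ := hext Ω p hp (K ⊓ Setoid.ker l) N T η hη0
  set P : Ω → Fin m → ℤ := fun ω => ptn N x v (l ω) (T ω) with hP
  set Q : Ω → ℕ × ℕ := fun ω => QQ (J ω) (T ω) with hQ
  set Θ : Ω → (ℕ × ℕ) × (Fin m → ℤ) := fun ω => (Q ω, FF N v (J ω) (l ω)) with hΘ
  have hΘQ : ∀ ω ω', Θ ω = Θ ω' → QQ (J ω) (T ω) = QQ (J ω') (T ω') :=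
    fun ω ω' h => (Prod.ext_iff.1 h).1
  have hΘJ : ∀ ω ω', Θ ω = Θ ω' → (J ω : ℕ) = (J ω' : ℕ) :=
    fun ω ω' h => (Prod.ext_iff.1 (hΘQ ω ω' h)).1
  have hle : K ⊓ Setoid.ker l ⊓ Setoid.ker (fun ω => QQ (J ω) (T ω)) ≤
      K ⊓ Setoid.ker l ⊓ Setoid.ker Θ := by
    intro ω ω' h
    refine ⟨h.1, ?_⟩
    show Θ ω = Θ ω'
    have hq : QQ (J ω) (T ω) = QQ (J ω') (T ω') := h.2
    have hl : l ω = l ω' := h.1.2
    have hj : (J ω : ℕ) = (J ω' : ℕ) := (Prod.ext_iff.1 hq).1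
    refine Prod.ext hq ?_
    show FF N v (J ω) (l ω) = FF N v (J ω') (l ω')
    rw [hl, hj]
  -- the inequality for each conditional system
  have hpt : ∀ ω0, 0 < p ω0 →
      aa (cnd p Θ (Θ ω0)) K l ≤ α * gg (cnd p Θ (Θ ω0)) K l T P
        + m * (((N : ℝ) - (J ω0 : ℕ)) * Real.log 2 - tt (cnd p Θ (Θ ω0)) K l T)
        + (ε / 3 * N + C) := by
    intro ω0 h0
    obtain ⟨hc1, hc2, -, -⟩ := hcond Ω _ p hp Θ K
    have hjN : (J ω0 : ℕ) ≤ N := Nat.lt_succ_iff.1 (J ω0).2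
    have h := hC N L x v hd Ω (cnd p Θ (Θ ω0)) (hc1 ω0 h0) K l T (J ω0 : ℕ) hjN
      ((T ω0 : ℕ) / 2 ^ (N - (J ω0 : ℕ))) (FF N v (J ω0 : ℕ) (l ω0)) ?_ ?_ ?_
    · rw [← add_assoc]
      exact h
    · intro ω hω
      have h2 := ((hc2 ω0 ω h0).1 hω).2
      have h3 := hΘQ _ _ h2
      have h4 := hΘJ _ _ h2
      have h5 := (Prod.ext_iff.1 h3).2
      simp only [QQ] at h5
      rw [h4] at h5
      exact h5
    · intro ω hω
      have h2 := ((hc2 ω0 ω h0).1 hω).2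
      have h4 := hΘJ _ _ h2
      have h5 : FF N v (J ω : ℕ) (l ω) = FF N v (J ω0 : ℕ) (l ω0) := (Prod.ext_iff.1 h2).2
      rw [h4] at h5
      exact h5
    · exact loca_conc hccj hcond N p hp K l T J Θ hΘQ hle η hη0 hJ2 ω0 h0
  have hsum := loca_avg p hp _ _ hpt
  have hE : ∀ r : Setoid Ω, ∑ ω, p ω * Ent (cnd p Θ (Θ ω)) r
      = Ent p (r ⊓ Setoid.ker Θ) - Ent p (Setoid.ker Θ) :=
    fun r => (hcond Ω _ p hp Θ r).2.2.2
  have e1 : ∑ ω, p ω * aa (cnd p Θ (Θ ω)) K l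
      = Ent p (K ⊓ Setoid.ker l ⊓ Setoid.ker Θ) - Ent p (K ⊓ Setoid.ker Θ) := by
    simp only [aa, mul_sub, Finset.sum_sub_distrib, hE]
    ring
  have et : ∑ ω, p ω * tt (cnd p Θ (Θ ω)) K l T
      = Ent p (K ⊓ Setoid.ker l ⊓ Setoid.ker T ⊓ Setoid.ker Θ)
        - Ent p (K ⊓ Setoid.ker l ⊓ Setoid.ker Θ) := by
    simp only [tt, mul_sub, Finset.sum_sub_distrib, hE]
    ring
  have eg : ∑ ω, p ω * gg (cnd p Θ (Θ ω)) K l T P
      = Ent p (K ⊓ Setoid.ker T ⊓ Setoid.ker P ⊓ Setoid.ker Θ) - Ent p (K ⊓ Setoid.ker Θ)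
        - (Ent p (K ⊓ Setoid.ker l ⊓ Setoid.ker T ⊓ Setoid.ker Θ)
          - Ent p (K ⊓ Setoid.ker l ⊓ Setoid.ker Θ)) := by
    simp only [gg, mul_sub, Finset.sum_sub_distrib, hE, et]
    ring
  have e2 : ∑ ω, p ω * (α * gg (cnd p Θ (Θ ω)) K l T P
        + m * (((N : ℝ) - (J ω : ℕ)) * Real.log 2 - tt (cnd p Θ (Θ ω)) K l T)
        + (ε / 3 * N + C))
      = α * (∑ ω, p ω * gg (cnd p Θ (Θ ω)) K l T P)
        + m * ((N : ℝ) * Real.log 2 - (∑ ω, p ω * ((J ω : ℕ) : ℝ)) * Real.log 2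
          - ∑ ω, p ω * tt (cnd p Θ (Θ ω)) K l T) + (ε / 3 * N + C) := by
    have hs : ∑ ω, p ω = 1 := hp.2
    have h1 : ∀ ω, p ω * (α * gg (cnd p Θ (Θ ω)) K l T P
        + m * (((N : ℝ) - (J ω : ℕ)) * Real.log 2 - tt (cnd p Θ (Θ ω)) K l T)
        + (ε / 3 * N + C))
        = α * (p ω * gg (cnd p Θ (Θ ω)) K l T P)
          - m * Real.log 2 * (p ω * ((J ω : ℕ) : ℝ))
          - m * (p ω * tt (cnd p Θ (Θ ω)) K l T)
          + (m * (N * Real.log 2) + (ε / 3 * N + C)) * p ω := by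
      intro ω
      ring
    simp only [h1, Finset.sum_add_distrib, Finset.sum_sub_distrib, ← Finset.mul_sum, hs]
    ring
  rw [e1, e2, eg, et] at hsum
  have hfin := hacc Ω p hp m N L (Fin m → ℤ) v K l T P J Q Θ α η (ε / 3 * N + C) hα hη0.le rfl
    rfl hJ1 hsum
  have hlog := loca_log α ε hα hε N
  have hηN : (m : ℝ) * η * Real.log 2 * N ≤ ε / 3 * N :=
    mul_le_mul_of_nonneg_right hη (Nat.cast_nonneg N)
  refine hfin.trans ?_
  linarith

end Pool.Agent.Helper75.KM
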